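import Mathlib

/-!
# The block lemma: an anisotropic binary form over a field in which the real Gram form splits
-/

set_option autoImplicit false

namespace Pool.Agent.GUB

variable {K : Type*} [Field K]

/-- the norm form `z ^ 2 - g w ^ 2` -/
def nf (g : K) (x : K × K) : K := x.1 ^ 2 - g * x.2 ^ 2

theorem nf_aniso {g : K} (hg : ¬ IsSquare g) {a b : K} (h : a ^ 2 - g * b ^ 2 = 0) : a = 0 ∧ b = 0 := by
  by_cases hb : b = 0
  · subst hb
    simp only [ne_eq, OfNat.ofNat_ne_zero, not_false_eq_true, zero_pow, mul_zero, sub_zero] at h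
    exact ⟨pow_eq_zero_iff (two_ne_zero) |>.1 h, rfl⟩
  · exfalso
    apply hg
    refine ⟨a / b, ?_⟩
    field_simp
    linear_combination -h

/-- Five vectors `x 0, .., x 4` of `K ^ 2` in a plane such that also their norms satisfy the relations;
`(n1, n2, n3)` is another Gram vector satisfying the same relations, nondegenerate and split over `K`. Then `x 1 = x 0`. -/
theorem blk {g : K} (h2 : (2 : K) ≠ 0) (hg : ¬ IsSquare g) (x : Fin 5 → K × K)
    {d A B A' B' n1 n2 n3 θ : K}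
    (hw1 : d * ((x 3).1 - (x 0).1) = A * ((x 1).1 - (x 0).1) + B * ((x 2).1 - (x 0).1))
    (hw2 : d * ((x 3).2 - (x 0).2) = A * ((x 1).2 - (x 0).2) + B * ((x 2).2 - (x 0).2))
    (hw1' : d * ((x 4).1 - (x 0).1) = A' * ((x 1).1 - (x 0).1) + B' * ((x 2).1 - (x 0).1))
    (hw2' : d * ((x 4).2 - (x 0).2) = A' * ((x 1).2 - (x 0).2) + B' * ((x 2).2 - (x 0).2))
    (hq : d * (nf g (x 3) - nf g (x 0)) = A * (nf g (x 1) - nf g (x 0)) + B * (nf g (x 2) - nf g (x 0)))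
    (hq' : d * (nf g (x 4) - nf g (x 0)) = A' * (nf g (x 1) - nf g (x 0)) + B' * (nf g (x 2) - nf g (x 0)))
    (hn : (A ^ 2 - d * A) * n1 + 2 * (A * B) * n2 + (B ^ 2 - d * B) * n3 = 0)
    (hn' : (A' ^ 2 - d * A') * n1 + 2 * (A' * B') * n2 + (B' ^ 2 - d * B') * n3 = 0)
    (hA : A ≠ 0) (hA' : A' ≠ 0) (hdet : (A - d) * B' - (A' - d) * B ≠ 0) (hn1 : n1 ≠ 0)
    (hθ : θ ^ 2 = n2 ^ 2 - n1 * n3) (hθ0 : θ ≠ 0) : x 1 = x 0 := by
  unfold nf at hq hq'
  generalize hz1 : (x 0).1 = z1 at *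
  generalize hz2 : (x 0).2 = z2 at *
  obtain ⟨u1, hu1⟩ : ∃ u1, (x 1).1 = z1 + u1 := ⟨(x 1).1 - z1, by ring⟩
  obtain ⟨u2, hu2⟩ : ∃ u2, (x 1).2 = z2 + u2 := ⟨(x 1).2 - z2, by ring⟩
  obtain ⟨v1, hv1⟩ : ∃ v1, (x 2).1 = z1 + v1 := ⟨(x 2).1 - z1, by ring⟩
  obtain ⟨v2, hv2⟩ : ∃ v2, (x 2).2 = z2 + v2 := ⟨(x 2).2 - z2, by ring⟩
  obtain ⟨w1, hww1⟩ : ∃ w1, (x 3).1 = z1 + w1 := ⟨(x 3).1 - z1, by ring⟩
  obtain ⟨w2, hww2⟩ : ∃ w2, (x 3).2 = z2 + w2 := ⟨(x 3).2 - z2, by ring⟩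
  obtain ⟨s1, hs1⟩ : ∃ s1, (x 4).1 = z1 + s1 := ⟨(x 4).1 - z1, by ring⟩
  obtain ⟨s2, hs2⟩ : ∃ s2, (x 4).2 = z2 + s2 := ⟨(x 4).2 - z2, by ring⟩
  rw [hu1, hv1, hww1] at hw1
  rw [hu2, hv2, hww2] at hw2
  rw [hu1, hv1, hs1] at hw1'
  rw [hu2, hv2, hs2] at hw2'
  rw [hu1, hv1, hu2, hv2, hww1, hww2] at hq
  rw [hu1, hv1, hu2, hv2, hs1, hs2] at hq'
  have e1 : (A ^ 2 - d * A) * (u1 ^ 2 - g * u2 ^ 2) + 2 * (A * B) * (u1 * v1 - g * (u2 * v2)) +
      (B ^ 2 - d * B) * (v1 ^ 2 - g * v2 ^ 2) = 0 := by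
    linear_combination d * hq - (A * u1 + B * v1 + d * w1 + 2 * d * z1) * hw1 +
      g * (A * u2 + B * v2 + d * w2 + 2 * d * z2) * hw2
  have e2 : (A' ^ 2 - d * A') * (u1 ^ 2 - g * u2 ^ 2) + 2 * (A' * B') * (u1 * v1 - g * (u2 * v2)) +
      (B' ^ 2 - d * B') * (v1 ^ 2 - g * v2 ^ 2) = 0 := by
    linear_combination d * hq' - (A' * u1 + B' * v1 + d * s1 + 2 * d * z1) * hw1' +
      g * (A' * u2 + B' * v2 + d * s2 + 2 * d * z2) * hw2'
  set γ1 := u1 ^ 2 - g * u2 ^ 2 with hγ1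
  set γ2 := u1 * v1 - g * (u2 * v2) with hγ2
  set γ3 := v1 ^ 2 - g * v2 ^ 2 with hγ3
  -- the minor `τ1 τ2' - τ2 τ1'`
  have hc : (A ^ 2 - d * A) * (A' * B') - (A * B) * (A' ^ 2 - d * A') ≠ 0 := by
    have : (A ^ 2 - d * A) * (A' * B') - (A * B) * (A' ^ 2 - d * A') =
        A * A' * ((A - d) * B' - (A' - d) * B) := by ring
    rw [this]
    exact mul_ne_zero (mul_ne_zero hA hA') hdet
  set c := (A ^ 2 - d * A) * (A' * B') - (A * B) * (A' ^ 2 - d * A') with hcdef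
  have p1 : c * (γ1 * n3 - γ3 * n1) = 0 := by
    linear_combination (A' * B') * n3 * e1 - (A * B) * n3 * e2 - (A' * B') * γ3 * hn + (A * B) * γ3 * hn'
  have p2 : c * (2 * (γ2 * n3 - γ3 * n2)) = 0 := by
    linear_combination (A ^ 2 - d * A) * n3 * e2 - (A' ^ 2 - d * A') * n3 * e1 -
      (A ^ 2 - d * A) * γ3 * hn' + (A' ^ 2 - d * A') * γ3 * hn
  have q1 : γ1 * n3 = γ3 * n1 := by
    have := (mul_eq_zero.1 p1).resolve_left hc
    exact sub_eq_zero.1 this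
  have q2 : γ2 * n3 = γ3 * n2 := by
    have := (mul_eq_zero.1 ((mul_eq_zero.1 p2).resolve_left hc)).resolve_left h2
    exact sub_eq_zero.1 this
  have hn3 : n3 ≠ 0 := by
    intro h0
    have : c * n1 = 0 := by
      rw [h0] at hn hn'
      linear_combination (A' * B') * hn - (A * B) * hn'
    exact (mul_ne_zero hc hn1) this
  -- the two roots
  have root : ∀ s : K, n1 * s ^ 2 + 2 * n2 * s + n3 = 0 → s * u1 + v1 = 0 ∧ s * u2 + v2 = 0 := by
    intro s hs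
    apply nf_aniso hg
    have : n3 * ((s * u1 + v1) ^ 2 - g * (s * u2 + v2) ^ 2) = 0 := by
      linear_combination s ^ 2 * q1 + 2 * s * q2 + γ3 * hs
    exact (mul_eq_zero.1 this).resolve_left hn3
  obtain ⟨a1, a2⟩ := root ((-n2 + θ) / n1) (by field_simp; linear_combination hθ)
  obtain ⟨b1, b2⟩ := root ((-n2 - θ) / n1) (by field_simp; linear_combination hθ)
  have k1 : 2 * θ * u1 = 0 := by
    have : ((-n2 + θ) / n1 - (-n2 - θ) / n1) * u1 = 0 := by linear_combination a1 - b1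
    have h3 : (-n2 + θ) / n1 - (-n2 - θ) / n1 = 2 * θ / n1 := by field_simp; ring
    rw [h3, div_mul_eq_mul_div, div_eq_zero_iff] at this
    exact this.resolve_right hn1
  have k2 : 2 * θ * u2 = 0 := by
    have : ((-n2 + θ) / n1 - (-n2 - θ) / n1) * u2 = 0 := by linear_combination a2 - b2
    have h3 : (-n2 + θ) / n1 - (-n2 - θ) / n1 = 2 * θ / n1 := by field_simp; ring
    rw [h3, div_mul_eq_mul_div, div_eq_zero_iff] at this
    exact this.resolve_right hn1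
  have l1 : u1 = 0 := (mul_eq_zero.1 k1).resolve_left (mul_ne_zero h2 hθ0)
  have l2 : u2 = 0 := (mul_eq_zero.1 k2).resolve_left (mul_ne_zero h2 hθ0)
  apply Prod.ext
  · rw [hu1, l1, hz1, add_zero]
  · rw [hu2, l2, hz2, add_zero]

/-! ### the field with `p ^ 2` elements -/

theorem sq_of_prime_field {p : ℕ} [Fact p.Prime] (hp : p ≠ 2) (a : ℤ) :
    IsSquare ((a : ℤ) : GaloisField p 2) := by
  classical
  have : Fintype (GaloisField p 2) := Fintype.ofFinite _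
  have hcard : Fintype.card (GaloisField p 2) = p ^ 2 := by
    rw [← Nat.card_eq_fintype_card]; exact GaloisField.card p 2 two_ne_zero
  have hchar : ringChar (GaloisField p 2) ≠ 2 := by
    rw [ringChar.eq (GaloisField p 2) p]
    exact hp
  by_cases ha : ((a : ℤ) : GaloisField p 2) = 0
  · rw [ha]; exact IsSquare.zero
  · rw [FiniteField.isSquare_iff hchar ha, hcard]
    have hodd : p % 2 = 1 := (Nat.Prime.eq_two_or_odd (Fact.out : p.Prime)).resolve_left hp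
    have hexp : p ^ 2 / 2 = (p - 1) * ((p + 1) / 2) := by
      obtain ⟨k, hk⟩ : ∃ k, p = 2 * k + 1 := ⟨p / 2, by omega⟩
      subst hk
      have h1 : (2 * k + 1) ^ 2 = 2 * (2 * k * (k + 1)) + 1 := by ring
      rw [h1]
      have h2 : (2 * k + 1 + 1) / 2 = k + 1 := by omega
      rw [h2]
      have h3 : 2 * k + 1 - 1 = 2 * k := by omega
      rw [h3]
      generalize 2 * k * (k + 1) = m
      omega
    rw [hexp, pow_mul]
    have h3 : ((a : ℤ) : GaloisField p 2) = algebraMap (ZMod p) (GaloisField p 2) (a : ZMod p) := by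
      simp
    have h4 : ((a : ℤ) : ZMod p) ≠ 0 := by
      intro h0
      apply ha
      rw [h3, h0, map_zero]
    rw [h3, ← map_pow, ZMod.pow_card_sub_one_eq_one h4, map_one, one_pow]

theorem exists_nonsq {p : ℕ} [Fact p.Prime] (hp : p ≠ 2) : ∃ g : GaloisField p 2, ¬ IsSquare g := by
  classical
  have : Fintype (GaloisField p 2) := Fintype.ofFinite _
  apply FiniteField.exists_nonsquare
  rw [ringChar.eq (GaloisField p 2) p]
  exact hp

end Pool.Agent.GUB
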