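import Pool.Agent.GUB.Proj
import Pool.Agent.GUB.Blk

/-!
# Five coplanar points: integer relations, reduction modulo the primes
-/

set_option autoImplicit false

namespace Pool.Agent.GUB

/-! ### real vectors on a sphere -/

theorem sphere_three {ι : Type*} [Fintype ι] (x y z : ι → ℝ) (hxy : x ≠ y) (hxz : x ≠ z) (hyz : y ≠ z)
    (h1 : ∑ i, x i ^ 2 = ∑ i, y i ^ 2) (h2 : ∑ i, x i ^ 2 = ∑ i, z i ^ 2) (s t : ℝ)
    (h : ∀ i, s * (y i - x i) + t * (z i - x i) = 0) : s = 0 ∧ t = 0 := by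
  have huu : 0 < ∑ i, (y i - x i) ^ 2 := by
    obtain ⟨i, hi⟩ := Function.ne_iff.1 hxy
    refine Finset.sum_pos' (fun i _ => sq_nonneg _) ⟨i, Finset.mem_univ i, ?_⟩
    have : y i - x i ≠ 0 := sub_ne_zero.2 (Ne.symm hi)
    positivity
  by_cases ht : t = 0
  · refine ⟨?_, ht⟩
    subst ht
    obtain ⟨i, hi⟩ := Function.ne_iff.1 hxy
    have h3 := h i
    rw [zero_mul, add_zero] at h3
    exact (mul_eq_zero.1 h3).resolve_right (sub_ne_zero.2 (Ne.symm hi))
  · exfalso
    set c := -s / t with hc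
    have hz : ∀ i, z i = x i + c * (y i - x i) := by
      intro i
      have h3 := h i
      have h4 : t * (z i - x i) = t * (c * (y i - x i)) := by
        rw [hc]; field_simp; linear_combination h3
      have h5 := mul_left_cancel₀ ht h4
      linarith
    have e1 : ∑ i, (y i - x i) ^ 2 + 2 * ∑ i, x i * (y i - x i) = 0 := by
      have : ∑ i, y i ^ 2 = ∑ i, x i ^ 2 + (∑ i, (y i - x i) ^ 2 + 2 * ∑ i, x i * (y i - x i)) := by
        rw [Finset.mul_sum, ← Finset.sum_add_distrib, ← Finset.sum_add_distrib]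
        exact Finset.sum_congr rfl fun i _ => by ring
      linarith
    have e2 : c ^ 2 * ∑ i, (y i - x i) ^ 2 + 2 * c * ∑ i, x i * (y i - x i) = 0 := by
      have : ∑ i, z i ^ 2 = ∑ i, x i ^ 2 +
          (c ^ 2 * ∑ i, (y i - x i) ^ 2 + 2 * c * ∑ i, x i * (y i - x i)) := by
        rw [Finset.mul_sum, Finset.mul_sum, ← Finset.sum_add_distrib, ← Finset.sum_add_distrib]
        exact Finset.sum_congr rfl fun i _ => by rw [hz i]; ring
      linarith
    have e3 : (c * (c - 1)) * ∑ i, (y i - x i) ^ 2 = 0 := by linear_combination e2 - c * e1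
    rcases mul_eq_zero.1 ((mul_eq_zero.1 e3).resolve_right huu.ne') with h0 | h0
    · apply hxz
      funext i
      rw [hz i, h0]; ring
    · apply hyz
      funext i
      rw [hz i]
      have : c = 1 := by linarith
      rw [this]; ring

/-! ### integer relations -/

theorem int_rel {κ : Type*} (u v w : κ → ℤ) (a b : ℝ) (h : ∀ k, (w k : ℝ) = a * u k + b * v k)
    (k l : κ) (m : κ) : (u k * v l - u l * v k) * w m =
      (w k * v l - w l * v k) * u m + (u k * w l - u l * w k) * v m := by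
  have h1 : (((u k * v l - u l * v k) * w m : ℤ) : ℝ) =
      (((w k * v l - w l * v k) * u m + (u k * w l - u l * w k) * v m : ℤ) : ℝ) := by
    push_cast
    rw [h k, h l, h m]; ring
  exact_mod_cast h1

theorem rel_A {κ : Type*} (u v w : κ → ℤ) (a b : ℝ) (h : ∀ k, (w k : ℝ) = a * u k + b * v k)
    (k l : κ) : ((w k * v l - w l * v k : ℤ) : ℝ) = a * ((u k * v l - u l * v k : ℤ) : ℝ) := by
  push_cast
  rw [h k, h l]; ring

theorem rel_B {κ : Type*} (u v w : κ → ℤ) (a b : ℝ) (h : ∀ k, (w k : ℝ) = a * u k + b * v k)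
    (k l : κ) : ((u k * w l - u l * w k : ℤ) : ℝ) = b * ((u k * v l - u l * v k : ℤ) : ℝ) := by
  push_cast
  rw [h k, h l]; ring

/-- the Gram relation coming from the sphere -/
theorem gram_rel {ι : Type*} [Fintype ι] (z u v w : ι → ℤ) {d A B : ℤ}
    (hw : ∀ i, d * w i = A * u i + B * v i)
    (hu : ∑ i, (z i + u i) ^ 2 = ∑ i, z i ^ 2) (hv : ∑ i, (z i + v i) ^ 2 = ∑ i, z i ^ 2)
    (hww : ∑ i, (z i + w i) ^ 2 = ∑ i, z i ^ 2) :
    (A ^ 2 - d * A) * ∑ i, u i ^ 2 + 2 * (A * B) * ∑ i, u i * v i +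
      (B ^ 2 - d * B) * ∑ i, v i ^ 2 = 0 := by
  have expand : ∀ t : ι → ℤ, ∑ i, (z i + t i) ^ 2 = ∑ i, z i ^ 2 + (∑ i, t i ^ 2 + 2 * ∑ i, z i * t i) := by
    intro t
    rw [Finset.mul_sum, ← Finset.sum_add_distrib, ← Finset.sum_add_distrib]
    exact Finset.sum_congr rfl fun i _ => by ring
  have e1 : ∑ i, u i ^ 2 + 2 * ∑ i, z i * u i = 0 := by
    have := expand u; linarith
  have e2 : ∑ i, v i ^ 2 + 2 * ∑ i, z i * v i = 0 := by
    have := expand v; linarith
  have e3 : ∑ i, w i ^ 2 + 2 * ∑ i, z i * w i = 0 := by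
    have := expand w; linarith
  have e4 : d ^ 2 * ∑ i, w i ^ 2 = A ^ 2 * ∑ i, u i ^ 2 + 2 * (A * B) * ∑ i, u i * v i +
      B ^ 2 * ∑ i, v i ^ 2 := by
    rw [Finset.mul_sum, Finset.mul_sum, Finset.mul_sum, Finset.mul_sum, ← Finset.sum_add_distrib,
      ← Finset.sum_add_distrib]
    refine Finset.sum_congr rfl fun i _ => ?_
    have : d ^ 2 * w i ^ 2 = (d * w i) ^ 2 := by ring
    rw [this, hw i]; ring
  have e5 : d * ∑ i, z i * w i = A * ∑ i, z i * u i + B * ∑ i, z i * v i := by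
    rw [Finset.mul_sum, Finset.mul_sum, Finset.mul_sum, ← Finset.sum_add_distrib]
    refine Finset.sum_congr rfl fun i _ => ?_
    have : d * (z i * w i) = z i * (d * w i) := by ring
    rw [this, hw i]; ring
  linear_combination -e4 + d ^ 2 * e3 - 2 * d * e5 - d * A * e1 - d * B * e2

/-- strict Cauchy-Schwarz -/
theorem cs_pos {ι : Type*} [Fintype ι] (u v : ι → ℤ) {k l : ι} (h : u k * v l - u l * v k ≠ 0) :
    0 < ∑ i, u i ^ 2 ∧ 0 < (∑ i, u i ^ 2) * (∑ i, v i ^ 2) - (∑ i, u i * v i) ^ 2 := by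
  have h1 : 0 < ∑ i, u i ^ 2 := by
    by_contra hcon
    have h0 : ∑ i, u i ^ 2 = 0 := le_antisymm (not_lt.1 hcon) (Finset.sum_nonneg fun i _ => sq_nonneg _)
    rw [Finset.sum_eq_zero_iff_of_nonneg (fun i _ => sq_nonneg _)] at h0
    have hk := h0 k (Finset.mem_univ _)
    have hl := h0 l (Finset.mem_univ _)
    rw [sq_eq_zero_iff] at hk hl
    apply h
    rw [hk, hl]; ring
  refine ⟨h1, ?_⟩
  have expand : ∀ a b : ℤ, ∑ i, (a * v i - b * u i) ^ 2 =
      a ^ 2 * (∑ i, v i ^ 2) - 2 * a * b * (∑ i, u i * v i) + b ^ 2 * (∑ i, u i ^ 2) := by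
    intro a b
    rw [Finset.mul_sum, Finset.mul_sum, Finset.mul_sum, ← Finset.sum_sub_distrib,
      ← Finset.sum_add_distrib]
    exact Finset.sum_congr rfl fun i _ => by ring
  have key := expand (∑ i, u i ^ 2) (∑ i, u i * v i)
  generalize ∑ i, u i ^ 2 = n1 at *
  generalize ∑ i, u i * v i = n2 at *
  generalize ∑ i, v i ^ 2 = n3 at *
  have key2 : ∑ i, (n1 * v i - n2 * u i) ^ 2 = n1 * (n1 * n3 - n2 ^ 2) := by
    rw [key]; ring
  have hpos : 0 < ∑ i, (n1 * v i - n2 * u i) ^ 2 := by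
    by_contra hcon
    have h0 : ∑ i, (n1 * v i - n2 * u i) ^ 2 = 0 :=
      le_antisymm (not_lt.1 hcon) (Finset.sum_nonneg fun i _ => sq_nonneg _)
    rw [Finset.sum_eq_zero_iff_of_nonneg (fun i _ => sq_nonneg _)] at h0
    have hk := h0 k (Finset.mem_univ _)
    have hl := h0 l (Finset.mem_univ _)
    rw [sq_eq_zero_iff] at hk hl
    have h3 : n1 * (u k * v l - u l * v k) = 0 := by linear_combination u k * hl - u l * hk
    exact h ((mul_eq_zero.1 h3).resolve_left h1.ne')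
  rw [key2] at hpos
  exact pos_of_mul_pos_right hpos h1.le

end Pool.Agent.GUB
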