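import Pool.Agent.GUB.Gn

/-!
# Counting: a greedy code on a sphere
-/

set_option autoImplicit false

namespace Pool.Agent.GUB

open scoped Pointwise

/-- a greedy code: a large subset of `F` in which two elements that agree outside of `h` coordinates are equal -/
theorem greedy {ι : Type*} [Fintype ι] [DecidableEq ι] {T : ι → Type*} [∀ i, Fintype (T i)]
    [∀ i, DecidableEq (T i)] (h q : ℕ) (hq : ∀ i, Fintype.card (T i) ≤ q) (hq1 : 1 ≤ q)
    (F : Finset (∀ i, T i)) :
    ∃ S ⊆ F, (∀ ζ ∈ S, ∀ ζ' ∈ S, ∀ I : Finset ι, I.card ≤ h → (∀ i, i ∉ I → ζ i = ζ' i) → ζ = ζ') ∧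
      F.card ≤ S.card * (2 ^ Fintype.card ι * q ^ h) := by
  classical
  let good : Finset (∀ i, T i) → Prop := fun S =>
    ∀ ζ ∈ S, ∀ ζ' ∈ S, ∀ I : Finset ι, I.card ≤ h → (∀ i, i ∉ I → ζ i = ζ' i) → ζ = ζ'
  obtain ⟨S, hS, hmax⟩ := Finset.exists_max_image (F.powerset.filter good) Finset.card
    ⟨∅, by simp [good]⟩
  rw [Finset.mem_filter, Finset.mem_powerset] at hS
  refine ⟨S, hS.1, hS.2, ?_⟩
  have hcov : F ⊆ S.biUnion fun s => ((Finset.univ : Finset (Finset ι)).filter fun I => I.card ≤ h).biUnion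
      fun I => Fintype.piFinset fun i => if i ∈ I then (Finset.univ : Finset (T i)) else {s i} := by
    intro x hx
    by_contra hcon
    have hno : ∀ s ∈ S, ∀ I : Finset ι, I.card ≤ h → ¬ ∀ i, i ∉ I → x i = s i := by
      intro s hs I hI hxs
      apply hcon
      rw [Finset.mem_biUnion]
      refine ⟨s, hs, ?_⟩
      rw [Finset.mem_biUnion]
      refine ⟨I, by simp [hI], ?_⟩
      rw [Fintype.mem_piFinset]
      intro i
      split_ifs with hi
      · exact Finset.mem_univ _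
      · rw [Finset.mem_singleton]; exact hxs i hi
    have hxS : x ∉ S := fun hxS => hno x hxS ∅ (by simp) fun i _ => rfl
    have hgood : good (insert x S) := by
      intro ζ hζ ζ' hζ' I hI hag
      rw [Finset.mem_insert] at hζ hζ'
      rcases hζ with rfl | hζ <;> rcases hζ' with rfl | hζ'
      · rfl
      · exact absurd hag (hno ζ' hζ' I hI)
      · exact absurd (fun i hi => (hag i hi).symm) (hno ζ hζ I hI)
      · exact hS.2 ζ hζ ζ' hζ' I hI hag
    have := hmax (insert x S) (by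
      rw [Finset.mem_filter, Finset.mem_powerset]
      exact ⟨Finset.insert_subset hx hS.1, hgood⟩)
    rw [Finset.card_insert_of_notMem hxS] at this
    omega
  refine (Finset.card_le_card hcov).trans ?_
  refine (Finset.card_biUnion_le_card_mul _ _ (2 ^ Fintype.card ι * q ^ h) fun s _ => ?_)
  refine (Finset.card_biUnion_le_card_mul _ _ (q ^ h) fun I hI => ?_).trans ?_
  · rw [Finset.mem_filter] at hI
    rw [Fintype.card_piFinset]
    have h1 : ∀ i, (if i ∈ I then (Finset.univ : Finset (T i)) else {s i}).card ≤ if i ∈ I then q else 1 := by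
      intro i
      split_ifs with hi
      · exact hq i
      · simp
    refine (Finset.prod_le_prod' fun i _ => h1 i).trans ?_
    rw [Finset.prod_ite_mem, Finset.univ_inter, Finset.prod_const]
    exact Nat.pow_le_pow_right hq1 hI.2
  · apply Nat.mul_le_mul_right
    refine (Finset.card_filter_le _ _).trans ?_
    rw [Finset.card_univ, Fintype.card_finset]

/-- pigeonhole -/
theorem fiber {α : Type*} [Fintype α] (N : α → ℤ) (B : ℕ) (h0 : ∀ x, 0 ≤ N x) (hB : ∀ x, N x ≤ B) :
    ∃ (R : ℤ) (F : Finset α), (∀ x ∈ F, N x = R) ∧ Fintype.card α ≤ (B + 1) * F.card := by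
  classical
  have hne : (Finset.Icc (0 : ℤ) B).Nonempty := ⟨0, by simp⟩
  obtain ⟨R, -, hR⟩ := Finset.exists_max_image (Finset.Icc (0 : ℤ) B)
    (fun R => ((Finset.univ : Finset α).filter fun x => N x = R).card) hne
  refine ⟨R, (Finset.univ : Finset α).filter fun x => N x = R, fun x hx => (Finset.mem_filter.1 hx).2, ?_⟩
  have h1 := Finset.card_eq_sum_card_fiberwise (f := N) (s := (Finset.univ : Finset α))
    (t := Finset.Icc (0 : ℤ) B) (fun x _ => by
      simp only [Finset.coe_Icc, Set.mem_Icc]; exact ⟨h0 x, hB x⟩)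
  rw [Finset.card_univ] at h1
  rw [h1]
  refine (Finset.sum_le_card_nsmul _ _ _ fun R' hR' => hR R' hR').trans ?_
  rw [smul_eq_mul, Int.card_Icc]
  apply Nat.mul_le_mul_right
  omega

variable {r : ℕ} (p : Fin r → ℕ) [∀ i, Fact (p i).Prime]

theorem card_KK (i : Fin r) [Fintype (KK p i × KK p i)] : Fintype.card (KK p i × KK p i) = p i ^ 4 := by
  rw [← Nat.card_eq_fintype_card, Nat.card_prod]
  have : Nat.card (GaloisField (p i) 2) = p i ^ 2 := GaloisField.card (p i) 2 two_ne_zero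
  rw [this]; ring

/-- the index type of the coordinates -/
abbrev Idx (r : ℕ) : Type := (Fin r × Fin 2 × Fin 2) ⊕ (Fin r × Fin 2)

/-- the large set with few sums -/
theorem set_of_primes (hinj : Function.Injective p) {P Q : ℕ} (hP2 : 2 < P) (hP : ∀ i, P ≤ p i)
    (hQ : ∀ i, p i ≤ Q) (hQ1 : 1 ≤ Q) (hbound : 64 * (4 * r) ^ 3 * Q ^ 14 < P ^ 15) :
    ∃ M : Finset (Idx r → ℝ), Gen (M : Set (Idx r → ℝ)) ∧
      P ^ (4 * r) ≤ (4 * r * Q ^ 2 + 1) * (M.card * (2 ^ r * (Q ^ 4) ^ 14)) ∧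
      ((M : Set (Idx r → ℝ)) + (M : Set (Idx r → ℝ))).ncard ≤ (2 * Q) ^ (6 * r) := by
  classical
  have hg : ∀ i, ∃ g : KK p i, ¬ IsSquare g := fun i => exists_nonsq (by have := hP i; omega)
  choose g hg using hg
  have inst1 : ∀ i, Fintype (KK p i) := fun i => Fintype.ofFinite _
  obtain ⟨R, F, hF, hFc⟩ := fiber (α := TT p) (fun ζ => ∑ k, xc p ζ k ^ 2) (4 * r * Q ^ 2)
    (fun ζ => Finset.sum_nonneg fun k _ => sq_nonneg _) (fun ζ => by
      calc ∑ k, xc p ζ k ^ 2 ≤ ∑ _k : Fin r × Fin 2 × Fin 2, (Q : ℤ) ^ 2 :=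
            Finset.sum_le_sum fun k _ => pow_le_pow_left₀ (xc_nonneg p ζ k) (xc_lt p hQ ζ k).le 2
        _ = ((4 * r * Q ^ 2 : ℕ) : ℤ) := by
            rw [Finset.sum_const, Finset.card_univ]
            simp only [Fintype.card_prod, Fintype.card_fin, nsmul_eq_mul]
            push_cast; ring)
  obtain ⟨S, hSF, hSd, hSc⟩ := greedy (T := fun i => KK p i × KK p i) 14 (Q ^ 4) (fun i => by
    rw [card_KK]; exact Nat.pow_le_pow_left (hQ i) 4) (Nat.one_le_pow _ _ hQ1) F
  have hgen := gen_of p g hg hinj hP2 hP hQ S R (fun ζ hζ => hF ζ (hSF hζ)) hSd hbound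
  have hcoe : ((S.image (rp p g) : Finset (Idx r → ℝ)) : Set (Idx r → ℝ)) = rp p g '' (S : Set (TT p)) := by
    rw [Finset.coe_image]
  refine ⟨S.image (rp p g), ?_, ?_, ?_⟩
  · rw [hcoe]; exact hgen
  · rw [Finset.card_image_of_injective _ (rp_inj p g)]
    have h1 : P ^ (4 * r) ≤ Fintype.card (TT p) := by
      rw [Fintype.card_pi]
      calc P ^ (4 * r) = ∏ _i : Fin r, P ^ 4 := by
            rw [Finset.prod_const, Finset.card_univ, Fintype.card_fin, ← pow_mul]
        _ ≤ ∏ i : Fin r, Fintype.card (KK p i × KK p i) := Finset.prod_le_prod' fun i _ => by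
            rw [card_KK]; exact Nat.pow_le_pow_left (hP i) 4
    rw [Fintype.card_fin] at hSc
    exact h1.trans (hFc.trans (Nat.mul_le_mul_left _ hSc))
  · rw [hcoe]
    let box : Finset (Idx r → ℤ) := Fintype.piFinset fun _ => Finset.Ico (0 : ℤ) (2 * Q)
    have hbox : box.card = (2 * Q) ^ (6 * r) := by
      rw [Fintype.card_piFinset, Finset.prod_const, Int.card_Ico, Finset.card_univ]
      simp only [Fintype.card_sum, Fintype.card_prod, Fintype.card_fin]
      have h1 : (2 * (Q : ℤ) - 0).toNat = 2 * Q := by omega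
      have h2 : r * (2 * 2) + r * 2 = 6 * r := by ring
      rw [h1, h2]
    have hsub : rp p g '' (S : Set (TT p)) + rp p g '' (S : Set (TT p)) ⊆
        ((box.image fun f : Idx r → ℤ => (fun k => (f k : ℝ) : Idx r → ℝ) : Finset (Idx r → ℝ)) :
          Set (Idx r → ℝ)) := by
      rintro _ ⟨_, ⟨ζ, -, rfl⟩, _, ⟨ζ', -, rfl⟩, rfl⟩
      rw [Finset.coe_image]
      refine ⟨fun k => pt p g ζ k + pt p g ζ' k, ?_, ?_⟩
      · rw [Finset.mem_coe, Fintype.mem_piFinset]
        intro k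
        have hk : ∀ ζ : TT p, 0 ≤ pt p g ζ k ∧ pt p g ζ k < Q := by
          intro ζ
          rcases k with k | k
          · exact ⟨xc_nonneg p ζ k, xc_lt p hQ ζ k⟩
          · exact ⟨yc_nonneg p g ζ k, yc_lt p hQ g ζ k⟩
        have h1 := hk ζ
        have h2 := hk ζ'
        rw [Finset.mem_Ico]
        constructor <;> linarith [h1.1, h1.2, h2.1, h2.2]
      · funext k
        simp [rp]
    calc (rp p g '' (S : Set (TT p)) + rp p g '' (S : Set (TT p))).ncard
        ≤ ((box.image fun f : Idx r → ℤ => (fun k => (f k : ℝ) : Idx r → ℝ) : Finset (Idx r → ℝ)) :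
          Set (Idx r → ℝ)).ncard := Set.ncard_le_ncard hsub (Finset.finite_toSet _)
      _ ≤ box.card := by rw [Set.ncard_coe_finset]; exact Finset.card_image_le
      _ = (2 * Q) ^ (6 * r) := hbox

/-- primes in dyadic intervals -/
theorem exists_primes (r P : ℕ) (hP : 0 < P) : ∃ p : Fin r → ℕ, (∀ i, (p i).Prime) ∧
    Function.Injective p ∧ (∀ i, P ≤ p i) ∧ ∀ i, p i ≤ 2 ^ r * P := by
  have h1 : ∀ i : ℕ, ∃ q, q.Prime ∧ 2 ^ i * P < q ∧ q ≤ 2 * (2 ^ i * P) := fun i =>
    Nat.exists_prime_lt_and_le_two_mul _ (by positivity)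
  choose q hq1 hq2 hq3 using h1
  have hmono : StrictMono q := strictMono_nat_of_lt_succ fun i => by
    refine (hq3 i).trans_lt (lt_of_le_of_lt (le_of_eq ?_) (hq2 (i + 1)))
    rw [pow_succ]; ring
  refine ⟨fun i => q i, fun i => hq1 i, fun i j hij => Fin.ext (hmono.injective hij), fun i => ?_,
    fun i => ?_⟩
  · have h2 : P ≤ 2 ^ (i : ℕ) * P := Nat.le_mul_of_pos_left P (by positivity)
    exact h2.trans (hq2 i).le
  · refine (hq3 i).trans ?_
    have h2 : 2 * (2 ^ (i : ℕ) * P) = 2 ^ ((i : ℕ) + 1) * P := by rw [pow_succ]; ring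
    rw [h2]
    exact Nat.mul_le_mul_right _ (Nat.pow_le_pow_right two_pos i.2)

end Pool.Agent.GUB
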