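import Pool.Agent.GUB.Alg

/-!
# The integral points attached to pairs of elements of the fields with `p i ^ 2` elements
-/

set_option autoImplicit false

namespace Pool.Agent.GUB

variable {r : ℕ} (p : Fin r → ℕ) [∀ i, Fact (p i).Prime]

/-- the field with `p i ^ 2` elements -/
abbrev KK (i : Fin r) : Type := GaloisField (p i) 2

/-- the coordinates over the prime field -/
noncomputable def cc (i : Fin r) : KK p i ≃ₗ[ZMod (p i)] (Fin 2 → ZMod (p i)) :=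
  (Module.finBasisOfFinrankEq (ZMod (p i)) (KK p i) (GaloisField.finrank (p i) two_ne_zero)).equivFun

/-- the representatives in `[0, p i)` of the coordinates -/
noncomputable def lf (i : Fin r) (x : KK p i) (t : Fin 2) : ℤ := ((cc p i x t).val : ℤ)

theorem lf_nonneg (i : Fin r) (x : KK p i) (t : Fin 2) : 0 ≤ lf p i x t := Int.natCast_nonneg _

theorem lf_lt (i : Fin r) (x : KK p i) (t : Fin 2) : lf p i x t < p i := by
  unfold lf
  exact_mod_cast ZMod.val_lt _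

theorem lf_cast (i : Fin r) (x : KK p i) (t : Fin 2) : ((lf p i x t : ℤ) : ZMod (p i)) = cc p i x t := by
  unfold lf
  rw [Int.cast_natCast, ZMod.natCast_zmod_val]

theorem lf_inj (i : Fin r) {x y : KK p i} (h : ∀ t, lf p i x t = lf p i y t) : x = y := by
  apply (cc p i).injective
  funext t
  rw [← lf_cast, ← lf_cast, h t]

theorem lf_rel (i : Fin r) {x0 x1 x2 x3 : KK p i} {d A B : ℤ}
    (h : ∀ t, d * (lf p i x3 t - lf p i x0 t) = A * (lf p i x1 t - lf p i x0 t) +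
      B * (lf p i x2 t - lf p i x0 t)) :
    (d : KK p i) * (x3 - x0) = A * (x1 - x0) + B * (x2 - x0) := by
  rw [← zsmul_eq_mul, ← zsmul_eq_mul, ← zsmul_eq_mul]
  apply (cc p i).injective
  rw [map_add, map_zsmul, map_zsmul, map_zsmul, map_sub, map_sub, map_sub]
  funext t
  rw [Pi.add_apply, Pi.smul_apply, Pi.smul_apply, Pi.smul_apply, Pi.sub_apply, Pi.sub_apply, Pi.sub_apply,
    zsmul_eq_mul, zsmul_eq_mul, zsmul_eq_mul]
  rw [← lf_cast, ← lf_cast, ← lf_cast, ← lf_cast]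
  exact_mod_cast congrArg (fun z : ℤ => (z : ZMod (p i))) (h t)

/-- pairs of elements -/
abbrev TT : Type := ∀ i : Fin r, KK p i × KK p i

/-- the coordinates of the point attached to `ζ`: the coordinates of the pair -/
noncomputable def xc (ζ : TT p) (k : Fin r × Fin 2 × Fin 2) : ℤ :=
  if k.2.1 = 0 then lf p k.1 (ζ k.1).1 k.2.2 else lf p k.1 (ζ k.1).2 k.2.2

/-- the coordinates of the norm -/
noncomputable def yc (g : ∀ i, KK p i) (ζ : TT p) (k : Fin r × Fin 2) : ℤ :=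
  lf p k.1 (nf (g k.1) (ζ k.1)) k.2

/-- the point -/
noncomputable def pt (g : ∀ i, KK p i) (ζ : TT p) : (Fin r × Fin 2 × Fin 2) ⊕ (Fin r × Fin 2) → ℤ :=
  Sum.elim (xc p ζ) (yc p g ζ)

theorem xc_inj {ζ ζ' : TT p} (h : xc p ζ = xc p ζ') : ζ = ζ' := by
  funext i
  apply Prod.ext
  · exact lf_inj p i fun t => by
      have := congrFun h (i, 0, t)
      simpa [xc] using this
  · exact lf_inj p i fun t => by
      have := congrFun h (i, 1, t)
      simpa [xc] using this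

theorem xc_nonneg (ζ : TT p) (k : Fin r × Fin 2 × Fin 2) : 0 ≤ xc p ζ k := by
  unfold xc; split_ifs <;> exact lf_nonneg _ _ _ _

theorem xc_lt {Q : ℕ} (hQ : ∀ i, p i ≤ Q) (ζ : TT p) (k : Fin r × Fin 2 × Fin 2) : xc p ζ k < Q := by
  have h1 : (p k.1 : ℤ) ≤ Q := by exact_mod_cast hQ k.1
  unfold xc; split_ifs
  · exact (lf_lt _ _ _ _).trans_le h1
  · exact (lf_lt _ _ _ _).trans_le h1

theorem yc_nonneg (g : ∀ i, KK p i) (ζ : TT p) (k : Fin r × Fin 2) : 0 ≤ yc p g ζ k := lf_nonneg _ _ _ _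

theorem yc_lt {Q : ℕ} (hQ : ∀ i, p i ≤ Q) (g : ∀ i, KK p i) (ζ : TT p) (k : Fin r × Fin 2) :
    yc p g ζ k < Q := by
  have h1 : (p k.1 : ℤ) ≤ Q := by exact_mod_cast hQ k.1
  exact (lf_lt _ _ _ _).trans_le h1

/-- the real point -/
noncomputable def rp (g : ∀ i, KK p i) (ζ : TT p) : (Fin r × Fin 2 × Fin 2) ⊕ (Fin r × Fin 2) → ℝ :=
  fun k => (pt p g ζ k : ℝ)

theorem rp_inj (g : ∀ i, KK p i) : Function.Injective (rp p g) := by
  intro ζ ζ' h
  apply xc_inj p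
  funext k
  have := congrFun h (Sum.inl k)
  simp only [rp, pt, Sum.elim_inl] at this
  exact_mod_cast this

/-- one block: if the prime does not divide the bad integers, then `ζ 1` and `ζ 0` agree in the block -/
theorem block_eq (g : ∀ i, KK p i) (hg : ∀ i, ¬ IsSquare (g i)) (i : Fin r) (hp : p i ≠ 2)
    (ζ : Fin 5 → TT p) {d A B A' B' n1 n2 n3 : ℤ}
    (hw : ∀ k, d * (pt p g (ζ 3) k - pt p g (ζ 0) k) = A * (pt p g (ζ 1) k - pt p g (ζ 0) k) +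
      B * (pt p g (ζ 2) k - pt p g (ζ 0) k))
    (hw' : ∀ k, d * (pt p g (ζ 4) k - pt p g (ζ 0) k) = A' * (pt p g (ζ 1) k - pt p g (ζ 0) k) +
      B' * (pt p g (ζ 2) k - pt p g (ζ 0) k))
    (hn : (A ^ 2 - d * A) * n1 + 2 * (A * B) * n2 + (B ^ 2 - d * B) * n3 = 0)
    (hn' : (A' ^ 2 - d * A') * n1 + 2 * (A' * B') * n2 + (B' ^ 2 - d * B') * n3 = 0)
    (hbad : ¬ (p i : ℤ) ∣ A * A' * ((A - d) * B' - (A' - d) * B) * n1 * (n1 * n3 - n2 ^ 2)) :
    ζ 1 i = ζ 0 i := by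
  have hz : ∀ z : ℤ, (z : KK p i) = 0 ↔ (p i : ℤ) ∣ z := fun z => CharP.intCast_eq_zero_iff _ (p i) z
  have h2 : (2 : KK p i) ≠ 0 := by
    have h3 := hz 2
    intro h0
    have h4 : (p i : ℤ) ∣ 2 := h3.1 (by exact_mod_cast h0)
    have h5 : p i ∣ 2 := by exact_mod_cast h4
    exact hp ((Nat.prime_dvd_prime_iff_eq Fact.out Nat.prime_two).1 h5)
  have hx : ∀ (z : ℤ) (w : ℤ), z ∣ w → ¬ (p i : ℤ) ∣ w → (z : KK p i) ≠ 0 := by
    intro z w hzw hw0 h0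
    exact hw0 (((hz z).1 h0).trans hzw)
  have dA : A ∣ A * A' * ((A - d) * B' - (A' - d) * B) * n1 * (n1 * n3 - n2 ^ 2) :=
    ⟨A' * ((A - d) * B' - (A' - d) * B) * n1 * (n1 * n3 - n2 ^ 2), by ring⟩
  have dA' : A' ∣ A * A' * ((A - d) * B' - (A' - d) * B) * n1 * (n1 * n3 - n2 ^ 2) :=
    ⟨A * ((A - d) * B' - (A' - d) * B) * n1 * (n1 * n3 - n2 ^ 2), by ring⟩
  have dD : ((A - d) * B' - (A' - d) * B) ∣
      A * A' * ((A - d) * B' - (A' - d) * B) * n1 * (n1 * n3 - n2 ^ 2) :=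
    ⟨A * A' * n1 * (n1 * n3 - n2 ^ 2), by ring⟩
  have dn : n1 ∣ A * A' * ((A - d) * B' - (A' - d) * B) * n1 * (n1 * n3 - n2 ^ 2) :=
    ⟨A * A' * ((A - d) * B' - (A' - d) * B) * (n1 * n3 - n2 ^ 2), by ring⟩
  have dθ : (n2 ^ 2 - n1 * n3) ∣ A * A' * ((A - d) * B' - (A' - d) * B) * n1 * (n1 * n3 - n2 ^ 2) :=
    ⟨-(A * A' * ((A - d) * B' - (A' - d) * B) * n1), by ring⟩
  obtain ⟨θ, hθ⟩ := sq_of_prime_field hp (n2 ^ 2 - n1 * n3)
  have comp : ∀ j : Fin 5, ∀ {C D : ℤ}, (∀ k, d * (pt p g (ζ j) k - pt p g (ζ 0) k) =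
      C * (pt p g (ζ 1) k - pt p g (ζ 0) k) + D * (pt p g (ζ 2) k - pt p g (ζ 0) k)) →
      ((d : KK p i) * ((ζ j i).1 - (ζ 0 i).1) = C * ((ζ 1 i).1 - (ζ 0 i).1) + D * ((ζ 2 i).1 - (ζ 0 i).1)) ∧
      ((d : KK p i) * ((ζ j i).2 - (ζ 0 i).2) = C * ((ζ 1 i).2 - (ζ 0 i).2) + D * ((ζ 2 i).2 - (ζ 0 i).2)) ∧
      ((d : KK p i) * (nf (g i) (ζ j i) - nf (g i) (ζ 0 i)) =
        C * (nf (g i) (ζ 1 i) - nf (g i) (ζ 0 i)) + D * (nf (g i) (ζ 2 i) - nf (g i) (ζ 0 i))) := by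
    intro j C D h
    refine ⟨lf_rel p i fun t => ?_, lf_rel p i fun t => ?_, lf_rel p i fun t => ?_⟩
    · have := h (Sum.inl (i, 0, t))
      simpa [pt, xc] using this
    · have := h (Sum.inl (i, 1, t))
      simpa [pt, xc] using this
    · have := h (Sum.inr (i, t))
      simpa [pt, yc] using this
  obtain ⟨a1, a2, a3⟩ := comp 3 hw
  obtain ⟨b1, b2, b3⟩ := comp 4 hw'
  have cn : ((A : KK p i) ^ 2 - d * A) * n1 + 2 * (A * B) * n2 + ((B : KK p i) ^ 2 - d * B) * n3 = 0 := by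
    exact_mod_cast congrArg (fun z : ℤ => (z : KK p i)) hn
  have cn' : ((A' : KK p i) ^ 2 - d * A') * n1 + 2 * (A' * B') * n2 +
      ((B' : KK p i) ^ 2 - d * B') * n3 = 0 := by
    exact_mod_cast congrArg (fun z : ℤ => (z : KK p i)) hn'
  have cθ : θ ^ 2 = (n2 : KK p i) ^ 2 - n1 * n3 := by
    rw [sq, ← hθ]; push_cast; ring
  refine blk h2 (hg i) (fun j => ζ j i) a1 a2 b1 b2 a3 b3 cn cn' (hx _ _ dA hbad) (hx _ _ dA' hbad)
    ?_ (hx _ _ dn hbad) cθ ?_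
  · have := hx _ _ dD hbad
    exact_mod_cast this
  · intro h0
    have := hx _ _ dθ hbad
    apply this
    push_cast
    rw [← cθ, h0]; ring

end Pool.Agent.GUB
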