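import Pool.Agent.GUB.Proj

/-!
# From `Gen` in `ℝ³` to planes
-/

set_option autoImplicit false

namespace Pool.Agent.GUB

open Matrix

theorem mem_pair {a u v w : Fin 3 → ℝ} (ha : a ≠ 0) (hu : a ⬝ᵥ u = 0) (hv : a ⬝ᵥ v = 0)
    (hw : a ⬝ᵥ w = 0) (hind : ∀ s t : ℝ, s • u + t • v = 0 → s = 0 ∧ t = 0) :
    ∃ p q : ℝ, w = p • u + q • v := by
  let f : (Fin 3 → ℝ) →ₗ[ℝ] ℝ :=
    { toFun := fun x => a ⬝ᵥ x
      map_add' := fun x y => dotProduct_add a x y
      map_smul' := fun c x => by simp [dotProduct_smul] }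
  have hf : ∀ x, f x = a ⬝ᵥ x := fun x => rfl
  have hli : LinearIndependent ℝ ![u, v] := by
    rw [LinearIndependent.pair_iff]
    exact hind
  have hsurj : Function.Surjective f := by
    have hne : f ≠ 0 := by
      intro h0
      apply ha
      have h1 : a ⬝ᵥ a = 0 := by rw [← hf, h0]; rfl
      exact dotProduct_self_eq_zero.1 h1
    exact LinearMap.surjective hne
  have hker : Module.finrank ℝ (LinearMap.ker f) = 2 := by
    have h1 := LinearMap.finrank_range_add_finrank_ker f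
    rw [LinearMap.range_eq_top.2 hsurj, finrank_top] at h1
    simp only [Module.finrank_self, Module.finrank_fintype_fun_eq_card, Fintype.card_fin] at h1
    omega
  have hspan : Submodule.span ℝ (Set.range ![u, v]) = LinearMap.ker f := by
    apply Submodule.eq_of_le_of_finrank_eq
    · rw [Submodule.span_le]
      rintro _ ⟨i, rfl⟩
      fin_cases i
      · exact hu
      · exact hv
    · rw [hker, finrank_span_eq_card hli, Fintype.card_fin]
  have hwm : w ∈ Submodule.span ℝ (Set.range ![u, v]) := by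
    rw [hspan]; exact hw
  rw [Matrix.range_cons, Matrix.range_cons, Matrix.range_empty, Set.union_empty,
    Set.singleton_union, Submodule.mem_span_pair] at hwm
  obtain ⟨p, q, h⟩ := hwm
  exact ⟨p, q, h.symm⟩

theorem plane_of_gen {A : Finset (Fin 3 → ℝ)} (h : Gen (A : Set (Fin 3 → ℝ))) (a : Fin 3 → ℝ)
    (c : ℝ) (ha : a ≠ 0) : {x : Fin 3 → ℝ | x ∈ A ∧ a ⬝ᵥ x = c}.ncard ≤ 4 := by
  classical
  have hset : {x : Fin 3 → ℝ | x ∈ A ∧ a ⬝ᵥ x = c} = ((A.filter fun x => a ⬝ᵥ x = c : Finset _) : Set _) := by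
    ext x; simp
  rw [hset, Set.ncard_coe_finset]
  by_contra hcon
  push Not at hcon
  obtain ⟨B, hB, hBc⟩ := Finset.exists_subset_card_eq (Nat.succ_le_of_lt hcon)
  let e := B.equivFinOfCardEq hBc
  let x : Fin 5 → (Fin 3 → ℝ) := fun i => (e.symm i : Fin 3 → ℝ)
  have hinj : Function.Injective x := fun i j hij => e.symm.injective (Subtype.ext hij)
  have hmem : ∀ i, x i ∈ A ∧ a ⬝ᵥ x i = c := fun i => by
    have := hB (e.symm i).2
    rwa [Finset.mem_filter] at this
  have hd : ∀ i, a ⬝ᵥ (x i - x 0) = 0 := fun i => by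
    rw [dotProduct_sub, (hmem i).2, (hmem 0).2, sub_self]
  have hind := h.three (x 0) (hmem 0).1 (x 1) (hmem 1).1 (x 2) (hmem 2).1
    (hinj.ne (by decide)) (hinj.ne (by decide)) (hinj.ne (by decide))
  obtain ⟨p, q, h3⟩ := mem_pair ha (hd 1) (hd 2) (hd 3) hind
  obtain ⟨p', q', h4⟩ := mem_pair ha (hd 1) (hd 2) (hd 4) hind
  exact h.five x hinj (fun i => (hmem i).1) p q p' q' h3 h4

end Pool.Agent.GUB
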