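import Pool.Agent.GUB.Cnt
import Pool.Agent.GUB.Pln

/-!
# 5-generic sets with few sums
-/

set_option autoImplicit false

namespace Pool.Agent.GUB

open Matrix
open scoped Pointwise

theorem Gen.mono {V : Type*} [AddCommGroup V] [Module ℝ V] {M M' : Set V} (h : Gen M) (hs : M' ⊆ M) :
    Gen M' :=
  ⟨fun x hx y hy z hz => h.three x (hs hx) y (hs hy) z (hs hz),
    fun x hx hm => h.five x hx fun i => hs (hm i)⟩

/-- the set for `P`, with explicit constants -/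
theorem set_of_P (r : ℕ) (hr : 15 ≤ r) (P : ℕ) (hP : 4096 * r ^ 3 * 2 ^ (14 * r) + 3 ≤ P) :
    ∃ M : Finset (Idx r → ℝ), Gen (M : Set (Idx r → ℝ)) ∧
      P ^ (4 * r - 58) ≤ 5 * r * 2 ^ (59 * r) * M.card ∧
      ((M : Set (Idx r → ℝ)) + (M : Set (Idx r → ℝ))).ncard ≤ (2 ^ (r + 1) * P) ^ (6 * r) := by
  obtain ⟨p, hp, hinj, hpP, hpQ⟩ := exists_primes r P (by omega)
  have : ∀ i, Fact (p i).Prime := fun i => ⟨hp i⟩
  set Q := 2 ^ r * P with hQdef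
  have hPpos : 0 < P := by omega
  have hQ1 : 1 ≤ Q := Nat.mul_pos (by positivity) hPpos
  have hbound : 64 * (4 * r) ^ 3 * Q ^ 14 < P ^ 15 := by
    have h1 : 64 * (4 * r) ^ 3 * Q ^ 14 = (4096 * r ^ 3 * 2 ^ (14 * r)) * P ^ 14 := by
      have e : Q ^ 14 = 2 ^ (14 * r) * P ^ 14 := by
        rw [hQdef, mul_pow, ← pow_mul, mul_comm r 14]
      rw [e]; ring
    rw [h1, pow_succ' P 14]
    apply Nat.mul_lt_mul_of_pos_right _ (by positivity)
    omega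
  obtain ⟨M, hM, hc, hs⟩ := set_of_primes p hinj (by omega : 2 < P) hpP hpQ hQ1 hbound
  refine ⟨M, hM, ?_, ?_⟩
  · have h1 : 4 * r * Q ^ 2 + 1 ≤ 5 * r * Q ^ 2 := by
      have : 1 ≤ r * Q ^ 2 := Nat.mul_pos (by omega) (by positivity)
      nlinarith
    have h2 : P ^ (4 * r) ≤ 5 * r * Q ^ 2 * (M.card * (2 ^ r * (Q ^ 4) ^ 14)) :=
      hc.trans (Nat.mul_le_mul_right _ h1)
    have h3 : 5 * r * Q ^ 2 * (M.card * (2 ^ r * (Q ^ 4) ^ 14)) =
        P ^ 58 * (5 * r * 2 ^ (59 * r) * M.card) := by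
      have e1 : (Q ^ 4) ^ 14 = Q ^ 56 := by rw [← pow_mul]
      have e2 : Q ^ 2 * Q ^ 56 = 2 ^ (58 * r) * P ^ 58 := by
        rw [← pow_add, hQdef, mul_pow, ← pow_mul]
        congr 2; ring
      have e3 : 2 ^ (59 * r) = 2 ^ r * 2 ^ (58 * r) := by rw [← pow_add]; congr 1; ring
      rw [e1, e3]
      calc 5 * r * Q ^ 2 * (M.card * (2 ^ r * Q ^ 56)) =
            5 * r * M.card * 2 ^ r * (Q ^ 2 * Q ^ 56) := by ring
        _ = _ := by rw [e2]; ring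
    rw [h3] at h2
    have h4 : P ^ (4 * r) = P ^ 58 * P ^ (4 * r - 58) := by rw [← pow_add]; congr 1; omega
    rw [h4] at h2
    exact Nat.le_of_mul_le_mul_left h2 (by positivity)
  · refine hs.trans (le_of_eq ?_)
    rw [hQdef, pow_succ]; congr 1; ring

theorem core (r : ℕ) (hr : 15 ≤ r) : ∃ C : ℝ, 0 < C ∧ ∀ n : ℕ, 1 ≤ n →
    ∃ A : Finset (Fin 3 → ℝ), A.card = n ∧
      (∀ (a : Fin 3 → ℝ) (c : ℝ), a ≠ 0 → {x : Fin 3 → ℝ | x ∈ A ∧ a ⬝ᵥ x = c}.ncard ≤ 4) ∧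
      (((A : Set (Fin 3 → ℝ)) + (A : Set (Fin 3 → ℝ))).ncard : ℝ) ≤
        C * (n : ℝ) ^ ((6 * r : ℝ) / (4 * r - 58 : ℝ)) := by
  classical
  set E : ℕ := 4 * r - 58 with hE
  have hE0 : 0 < E := by omega
  have hEr : (E : ℝ) = 4 * r - 58 := by
    rw [hE, Nat.cast_sub (by omega)]; push_cast; ring
  have hEpos : (0 : ℝ) < E := by exact_mod_cast hE0
  set C1 : ℕ := 5 * r * 2 ^ (59 * r) with hC1
  have hC1pos : 0 < C1 := by rw [hC1]; positivity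
  set P0 : ℕ := 4096 * r ^ 3 * 2 ^ (14 * r) + 3 with hP0
  set C2 : ℝ := (C1 : ℝ) ^ (1 / (E : ℝ)) + 1 + P0 with hC2
  have hC2pos : 0 < C2 := by positivity
  refine ⟨(2 ^ (r + 1) * C2) ^ (6 * r), by positivity, ?_⟩
  intro n hn
  have hn1 : (1 : ℝ) ≤ n := by exact_mod_cast hn
  set y : ℝ := (n : ℝ) ^ (1 / (E : ℝ)) with hy
  have hy1 : 1 ≤ y := Real.one_le_rpow hn1 (by positivity)
  set x : ℝ := ((C1 : ℝ) * n) ^ (1 / (E : ℝ)) with hx
  have hx0 : 0 ≤ x := by positivity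
  have hxy : x = (C1 : ℝ) ^ (1 / (E : ℝ)) * y := by
    rw [hx, Real.mul_rpow (by positivity) (by positivity)]
  set P : ℕ := ⌈x⌉₊ + P0 with hPdef
  have hPle : (P : ℝ) ≤ C2 * y := by
    have h1 : (⌈x⌉₊ : ℝ) < x + 1 := Nat.ceil_lt_add_one hx0
    rw [hPdef, hC2]
    push_cast
    have h2 : (P0 : ℝ) ≤ P0 * y := le_mul_of_one_le_right (by positivity) hy1
    nlinarith
  obtain ⟨M, hM, hc, hs⟩ := set_of_P r hr P (by omega)
  have hnM : n ≤ M.card := by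
    have h1 : x ^ E = (C1 : ℝ) * n := by
      rw [hx, ← Real.rpow_natCast, ← Real.rpow_mul (by positivity), one_div,
        inv_mul_cancel₀ hEpos.ne', Real.rpow_one]
    have h2 : x ≤ (P : ℝ) := by
      rw [hPdef]; push_cast
      have := Nat.le_ceil x
      have h3 : (0 : ℝ) ≤ (P0 : ℝ) := Nat.cast_nonneg _
      linarith
    have h3 : (C1 : ℝ) * n ≤ (P : ℝ) ^ E := by
      rw [← h1]; exact pow_le_pow_left₀ hx0 h2 E
    have h4 : C1 * n ≤ P ^ E := by exact_mod_cast h3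
    have h5 : C1 * n ≤ C1 * M.card := h4.trans hc
    exact Nat.le_of_mul_le_mul_left h5 hC1pos
  obtain ⟨M', hM', hM'c⟩ := Finset.exists_subset_card_eq hnM
  have hgen' : Gen (M' : Set (Idx r → ℝ)) := hM.mono (by exact_mod_cast hM')
  have hfr : Module.finrank ℝ (Idx r → ℝ) = (6 * r - 3) + 3 := by
    rw [Module.finrank_fintype_fun_eq_card]
    simp only [Fintype.card_sum, Fintype.card_prod, Fintype.card_fin]
    omega
  obtain ⟨f, hf1, hf2⟩ := exists_proj (6 * r - 3) (Idx r → ℝ) hfr M' hgen'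
  have hcoe : ((M'.image f : Finset (Fin 3 → ℝ)) : Set (Fin 3 → ℝ)) = f '' (M' : Set (Idx r → ℝ)) := by
    rw [Finset.coe_image]
  refine ⟨M'.image f, ?_, ?_, ?_⟩
  · rw [Finset.card_image_of_injOn hf1, hM'c]
  · exact plane_of_gen (by rw [hcoe]; exact hf2)
  · have hfin : ((M : Set (Idx r → ℝ)) + (M : Set (Idx r → ℝ))).Finite :=
      (Finset.finite_toSet M).add (Finset.finite_toSet M)
    have hsub : (M' : Set (Idx r → ℝ)) + (M' : Set (Idx r → ℝ)) ⊆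
        (M : Set (Idx r → ℝ)) + (M : Set (Idx r → ℝ)) :=
      Set.add_subset_add (by exact_mod_cast hM') (by exact_mod_cast hM')
    have h1 : (f '' (M' : Set (Idx r → ℝ)) + f '' (M' : Set (Idx r → ℝ))).ncard ≤
        (2 ^ (r + 1) * P) ^ (6 * r) := by
      rw [← Set.image_add f]
      refine (Set.ncard_image_le (hfin.subset hsub)).trans ?_
      exact (Set.ncard_le_ncard hsub hfin).trans hs
    rw [hcoe]
    calc ((f '' (M' : Set (Idx r → ℝ)) + f '' (M' : Set (Idx r → ℝ))).ncard : ℝ)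
        ≤ (((2 ^ (r + 1) * P) ^ (6 * r) : ℕ) : ℝ) := by exact_mod_cast h1
      _ = (2 ^ (r + 1) * (P : ℝ)) ^ (6 * r) := by push_cast; ring
      _ ≤ (2 ^ (r + 1) * (C2 * y)) ^ (6 * r) := by
          apply pow_le_pow_left₀ (by positivity)
          exact mul_le_mul_of_nonneg_left hPle (by positivity)
      _ = (2 ^ (r + 1) * C2) ^ (6 * r) * y ^ (6 * r) := by rw [← mul_assoc, mul_pow]
      _ = (2 ^ (r + 1) * C2) ^ (6 * r) * (n : ℝ) ^ ((6 * r : ℝ) / (4 * r - 58 : ℝ)) := by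
          congr 1
          rw [hy, ← Real.rpow_natCast, ← Real.rpow_mul (by positivity), ← hEr]
          congr 1
          push_cast
          field_simp

/-- 5-generic sets of `n` points of `ℝ³` with at most `C n ^ (3/2 + ε)` sums -/
theorem few_sums (ε : ℝ) (hε : 0 < ε) : ∃ C : ℝ, 0 < C ∧ ∀ n : ℕ, 1 ≤ n →
    ∃ A : Finset (Fin 3 → ℝ), A.card = n ∧
      (∀ (a : Fin 3 → ℝ) (c : ℝ), a ≠ 0 → {x : Fin 3 → ℝ | x ∈ A ∧ a ⬝ᵥ x = c}.ncard ≤ 4) ∧
      (((A : Set (Fin 3 → ℝ)) + (A : Set (Fin 3 → ℝ))).ncard : ℝ) ≤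
        C * (n : ℝ) ^ ((3 : ℝ) / 2 + ε) := by
  obtain ⟨r, hr⟩ := exists_nat_ge (max 15 ((87 + 58 * ε) / (4 * ε)))
  have hr15 : 15 ≤ r := by
    have : (15 : ℝ) ≤ r := (le_max_left _ _).trans hr
    exact_mod_cast this
  have hr2 : (87 + 58 * ε) / (4 * ε) ≤ r := (le_max_right _ _).trans hr
  rw [div_le_iff₀ (by positivity)] at hr2
  have hexp : (6 * r : ℝ) / (4 * r - 58 : ℝ) ≤ 3 / 2 + ε := by
    have h15 : (15 : ℝ) ≤ r := by exact_mod_cast hr15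
    rw [div_le_iff₀ (by linarith)]
    nlinarith
  obtain ⟨C, hC, hcore⟩ := core r hr15
  refine ⟨C, hC, fun n hn => ?_⟩
  obtain ⟨A, h1, h2, h3⟩ := hcore n hn
  refine ⟨A, h1, h2, h3.trans ?_⟩
  apply mul_le_mul_of_nonneg_left _ hC.le
  exact Real.rpow_le_rpow_of_exponent_le (by exact_mod_cast hn) hexp

end Pool.Agent.GUB
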