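import Pool.Agent.GUB.Emb

/-!
# No three collinear, no five coplanar
-/

set_option autoImplicit false

namespace Pool.Agent.GUB

variable {r : ℕ} (p : Fin r → ℕ) [∀ i, Fact (p i).Prime]

/-- few primes divide a small number -/
theorem bad_card (hinj : Function.Injective p) {P h : ℕ} (hP1 : 1 < P) (hP : ∀ i, P ≤ p i) {N : ℤ}
    (hN : N ≠ 0) (hb : N.natAbs < P ^ (h + 1)) :
    (Finset.univ.filter fun i => (p i : ℤ) ∣ N).card ≤ h := by
  classical
  set bad := Finset.univ.filter fun i => (p i : ℤ) ∣ N with hbad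
  have h1 : ∏ q ∈ bad.image p, q ∣ N.natAbs := by
    apply Finset.prod_primes_dvd
    · intro q hq
      obtain ⟨i, -, rfl⟩ := Finset.mem_image.1 hq
      exact Nat.prime_iff.1 Fact.out
    · intro q hq
      obtain ⟨i, hi, rfl⟩ := Finset.mem_image.1 hq
      rw [hbad, Finset.mem_filter] at hi
      exact Int.natCast_dvd.1 hi.2
  rw [Finset.prod_image (fun i _ j _ hij => hinj hij)] at h1
  have h2 : ∏ i ∈ bad, p i ≤ N.natAbs := Nat.le_of_dvd (Int.natAbs_pos.2 hN) h1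
  have h3 : P ^ bad.card ≤ ∏ i ∈ bad, p i := by
    rw [← Finset.prod_const]
    exact Finset.prod_le_prod' fun i _ => hP i
  have h4 : P ^ bad.card < P ^ (h + 1) := (h3.trans h2).trans_lt hb
  have h5 := (Nat.pow_lt_pow_iff_right hP1).1 h4
  omega

theorem abs_det_le {a b c d X Y : ℤ} (ha : |a| ≤ X) (hb : |b| ≤ Y) (hc : |c| ≤ X) (hd : |d| ≤ Y)
    : |a * b - c * d| ≤ 2 * (X * Y) := by
  have hX : 0 ≤ X := (abs_nonneg _).trans ha
  have h1 : |a * b| ≤ X * Y := by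
    rw [abs_mul]; exact mul_le_mul ha hb (abs_nonneg _) hX
  have h2 : |c * d| ≤ X * Y := by
    rw [abs_mul]; exact mul_le_mul hc hd (abs_nonneg _) hX
  have h3 := abs_sub (a * b) (c * d)
  linarith

/-- the size of the bad integer -/
theorem bad_bound {κ : Type*} [Fintype κ] {n : ℕ} (hn : Fintype.card κ ≤ n) {Q : ℤ} (hQ : 0 ≤ Q)
    (u v w w' : κ → ℤ)
    (hu : ∀ k, |u k| ≤ Q) (hv : ∀ k, |v k| ≤ Q) (hw : ∀ k, |w k| ≤ Q) (hw' : ∀ k, |w' k| ≤ Q)
    (k l : κ) (hd : u k * v l - u l * v k ≠ 0) :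
    |(w k * v l - w l * v k) * (w' k * v l - w' l * v k) *
      ((w k * v l - w l * v k - (u k * v l - u l * v k)) * (u k * w' l - u l * w' k) -
        (w' k * v l - w' l * v k - (u k * v l - u l * v k)) * (u k * w l - u l * w k)) *
      (∑ i, u i ^ 2) * ((∑ i, u i ^ 2) * (∑ i, v i ^ 2) - (∑ i, u i * v i) ^ 2)| ≤
      64 * (n : ℤ) ^ 3 * Q ^ 14 := by
  have e1 : |w k * v l - w l * v k| ≤ 2 * (Q * Q) := abs_det_le (hw k) (hv l) (hw l) (hv k)
  have e2 : |w' k * v l - w' l * v k| ≤ 2 * (Q * Q) := abs_det_le (hw' k) (hv l) (hw' l) (hv k)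
  have e3 : |u k * v l - u l * v k| ≤ 2 * (Q * Q) := abs_det_le (hu k) (hv l) (hu l) (hv k)
  have e4 : |u k * w' l - u l * w' k| ≤ 2 * (Q * Q) := abs_det_le (hu k) (hw' l) (hu l) (hw' k)
  have e5 : |u k * w l - u l * w k| ≤ 2 * (Q * Q) := abs_det_le (hu k) (hw l) (hu l) (hw k)
  have e6 : |w k * v l - w l * v k - (u k * v l - u l * v k)| ≤ 4 * (Q * Q) := by
    have := abs_sub (w k * v l - w l * v k) (u k * v l - u l * v k); linarith
  have e7 : |w' k * v l - w' l * v k - (u k * v l - u l * v k)| ≤ 4 * (Q * Q) := by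
    have := abs_sub (w' k * v l - w' l * v k) (u k * v l - u l * v k); linarith
  have e8 := abs_det_le e6 e4 e7 e5
  have sumsq : ∀ t : κ → ℤ, (∀ k, |t k| ≤ Q) → ∑ i, t i ^ 2 ≤ n * Q ^ 2 := by
    intro t ht
    calc ∑ i, t i ^ 2 ≤ ∑ _i : κ, Q ^ 2 := Finset.sum_le_sum fun i _ => by
            rw [← sq_abs (t i)]; exact pow_le_pow_left₀ (abs_nonneg _) (ht i) 2
      _ = (Fintype.card κ : ℤ) * Q ^ 2 := by simp
      _ ≤ n * Q ^ 2 := by
            have : (Fintype.card κ : ℤ) ≤ n := by exact_mod_cast hn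
            exact mul_le_mul_of_nonneg_right this (sq_nonneg _)
  have n1 := sumsq u hu
  have n3 := sumsq v hv
  have n1' : 0 ≤ ∑ i, u i ^ 2 := Finset.sum_nonneg fun i _ => sq_nonneg _
  have n3' : 0 ≤ ∑ i, v i ^ 2 := Finset.sum_nonneg fun i _ => sq_nonneg _
  obtain ⟨c1, c2⟩ := cs_pos u v hd
  have e9 : |(∑ i, u i ^ 2) * (∑ i, v i ^ 2) - (∑ i, u i * v i) ^ 2| ≤ (n * Q ^ 2) * (n * Q ^ 2) := by
    rw [abs_of_pos c2]
    have := mul_le_mul n1 n3 n3' (by positivity)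
    have h4 := sq_nonneg (∑ i, u i * v i)
    linarith
  have e10 : |∑ i, u i ^ 2| ≤ n * Q ^ 2 := by rw [abs_of_nonneg n1']; exact n1
  rw [abs_mul, abs_mul, abs_mul, abs_mul]
  have hQQ : 0 ≤ Q * Q := mul_nonneg hQ hQ
  have f1 := mul_le_mul e1 e2 (abs_nonneg _) (by positivity : (0:ℤ) ≤ 2 * (Q * Q))
  have f2 := mul_le_mul f1 e8 (abs_nonneg _) (by positivity)
  have f3 := mul_le_mul f2 e10 (abs_nonneg _) (by positivity)
  have f4 := mul_le_mul f3 e9 (abs_nonneg _) (by positivity)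
  refine f4.trans (le_of_eq ?_)
  ring

theorem gen_of (g : ∀ i, KK p i) (hg : ∀ i, ¬ IsSquare (g i)) (hinj : Function.Injective p)
    {P Q h : ℕ} (hP2 : 2 < P) (hP : ∀ i, P ≤ p i) (hQ : ∀ i, p i ≤ Q) (S : Finset (TT p)) (R : ℤ)
    (hR : ∀ ζ ∈ S, ∑ k, xc p ζ k ^ 2 = R)
    (hd : ∀ ζ ∈ S, ∀ ζ' ∈ S, ∀ I : Finset (Fin r), I.card ≤ h → (∀ i, i ∉ I → ζ i = ζ' i) → ζ = ζ')
    (hbound : 64 * (4 * r) ^ 3 * Q ^ 14 < P ^ (h + 1)) :
    Gen (rp p g '' (S : Set (TT p))) := by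
  classical
  -- the x-part
  let xr : TT p → (Fin r × Fin 2 × Fin 2) → ℝ := fun ζ k => (xc p ζ k : ℝ)
  have hxr : ∀ ζ ζ', ζ ≠ ζ' → xr ζ ≠ xr ζ' := by
    intro ζ ζ' hne h0
    apply hne
    apply xc_inj p
    funext k
    have h1 : (xc p ζ k : ℝ) = (xc p ζ' k : ℝ) := congrFun h0 k
    exact_mod_cast h1
  have hRr : ∀ ζ ∈ S, ∀ ζ' ∈ S, ∑ k, xr ζ k ^ 2 = ∑ k, xr ζ' k ^ 2 := by
    intro ζ hζ ζ' hζ'
    have h1 := (hR ζ hζ).trans (hR ζ' hζ').symm
    show ∑ k, (xc p ζ k : ℝ) ^ 2 = ∑ k, (xc p ζ' k : ℝ) ^ 2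
    exact_mod_cast h1
  have three : ∀ ζ ∈ S, ∀ ζ' ∈ S, ∀ ζ'' ∈ S, ζ ≠ ζ' → ζ ≠ ζ'' → ζ' ≠ ζ'' → ∀ s t : ℝ,
      (∀ k, s * (xr ζ' k - xr ζ k) + t * (xr ζ'' k - xr ζ k) = 0) → s = 0 ∧ t = 0 := by
    intro ζ hζ ζ' hζ' ζ'' hζ'' h1 h2 h3 s t h0
    exact sphere_three (xr ζ) (xr ζ') (xr ζ'') (hxr _ _ h1) (hxr _ _ h2) (hxr _ _ h3)
      (hRr _ hζ _ hζ') (hRr _ hζ _ hζ'') s t h0
  constructor
  · rintro _ ⟨ζ, hζ, rfl⟩ _ ⟨ζ', hζ', rfl⟩ _ ⟨ζ'', hζ'', rfl⟩ h1 h2 h3 s t h0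
    refine three ζ hζ ζ' hζ' ζ'' hζ'' (fun e => h1 (by rw [e])) (fun e => h2 (by rw [e]))
      (fun e => h3 (by rw [e])) s t fun k => ?_
    have := congrFun h0 (Sum.inl k)
    simpa [rp, pt, xr] using this
  · intro X hX hXM a b a' b' h3 h4
    choose ζ hζ hζX using hXM
    have hinjζ : Function.Injective ζ := by
      intro i j hij
      apply hX
      rw [← hζX i, ← hζX j, hij]
    -- integer vectors
    let z : (Fin r × Fin 2 × Fin 2) ⊕ (Fin r × Fin 2) → ℤ := pt p g (ζ 0)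
    let D : Fin 5 → (Fin r × Fin 2 × Fin 2) ⊕ (Fin r × Fin 2) → ℤ := fun j k => pt p g (ζ j) k - z k
    have hD : ∀ j k, X j k - X 0 k = (D j k : ℝ) := by
      intro j k
      rw [← hζX j, ← hζX 0]
      simp [rp, D, z]
    have r3 : ∀ k, (D 3 k : ℝ) = a * D 1 k + b * D 2 k := by
      intro k
      have := congrFun h3 k
      simp only [Pi.sub_apply, Pi.add_apply, Pi.smul_apply, smul_eq_mul, hD] at this
      exact this
    have r4 : ∀ k, (D 4 k : ℝ) = a' * D 1 k + b' * D 2 k := by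
      intro k
      have := congrFun h4 k
      simp only [Pi.sub_apply, Pi.add_apply, Pi.smul_apply, smul_eq_mul, hD] at this
      exact this
    -- independence in the x-part
    have indep : ∀ i j l : Fin 5, i ≠ j → i ≠ l → j ≠ l → ∀ s t : ℝ,
        (∀ k, s * ((D j (Sum.inl k) : ℝ) - D i (Sum.inl k)) +
          t * ((D l (Sum.inl k) : ℝ) - D i (Sum.inl k)) = 0) → s = 0 ∧ t = 0 := by
      intro i j l hij hil hjl s t h0
      refine three (ζ i) (hζ i) (ζ j) (hζ j) (ζ l) (hζ l) (hinjζ.ne hij) (hinjζ.ne hil)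
        (hinjζ.ne hjl) s t fun k => ?_
      have := h0 k
      simp only [D, z, pt, Sum.elim_inl] at this
      push_cast at this
      simp only [xr]
      linear_combination this
    -- a nonzero minor
    obtain ⟨k, l, hkl⟩ : ∃ k l, D 1 (Sum.inl k) * D 2 (Sum.inl l) - D 1 (Sum.inl l) * D 2 (Sum.inl k) ≠ 0 := by
      by_contra hcon
      push Not at hcon
      obtain ⟨k0, hk0⟩ : ∃ k, D 1 (Sum.inl k) ≠ 0 := by
        by_contra hc
        push Not at hc
        have := (indep 0 1 2 (by decide) (by decide) (by decide) 1 0 fun k => by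
          have h0 : D 0 (Sum.inl k) = 0 := by simp [D, z]
          rw [hc k, h0]; simp).1
        exact one_ne_zero this
      have h5 := (indep 0 1 2 (by decide) (by decide) (by decide) (D 2 (Sum.inl k0)) (-(D 1 (Sum.inl k0)))
        fun k => by
          have h0 : D 0 (Sum.inl k) = 0 := by simp [D, z]
          rw [h0]
          have h6 := hcon k0 k
          have h7 : ((D 1 (Sum.inl k0) * D 2 (Sum.inl k) - D 1 (Sum.inl k) * D 2 (Sum.inl k0) : ℤ) : ℝ) = 0 := by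
            rw [h6]; simp
          push_cast at h7
          push_cast
          linear_combination -h7).2
      rw [neg_eq_zero] at h5
      exact hk0 (by exact_mod_cast h5)
    set d : ℤ := D 1 (Sum.inl k) * D 2 (Sum.inl l) - D 1 (Sum.inl l) * D 2 (Sum.inl k) with hd_def
    set A : ℤ := D 3 (Sum.inl k) * D 2 (Sum.inl l) - D 3 (Sum.inl l) * D 2 (Sum.inl k) with hA_def
    set B : ℤ := D 1 (Sum.inl k) * D 3 (Sum.inl l) - D 1 (Sum.inl l) * D 3 (Sum.inl k) with hB_def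
    set A' : ℤ := D 4 (Sum.inl k) * D 2 (Sum.inl l) - D 4 (Sum.inl l) * D 2 (Sum.inl k) with hA'_def
    set B' : ℤ := D 1 (Sum.inl k) * D 4 (Sum.inl l) - D 1 (Sum.inl l) * D 4 (Sum.inl k) with hB'_def
    have hdr : (d : ℝ) ≠ 0 := by exact_mod_cast hkl
    have hAr : (A : ℝ) = a * d := rel_A (D 1) (D 2) (D 3) a b r3 (Sum.inl k) (Sum.inl l)
    have hBr : (B : ℝ) = b * d := rel_B (D 1) (D 2) (D 3) a b r3 (Sum.inl k) (Sum.inl l)
    have hAr' : (A' : ℝ) = a' * d := rel_A (D 1) (D 2) (D 4) a' b' r4 (Sum.inl k) (Sum.inl l)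
    have hBr' : (B' : ℝ) = b' * d := rel_B (D 1) (D 2) (D 4) a' b' r4 (Sum.inl k) (Sum.inl l)
    have i3 : ∀ m, d * D 3 m = A * D 1 m + B * D 2 m := fun m =>
      int_rel (D 1) (D 2) (D 3) a b r3 (Sum.inl k) (Sum.inl l) m
    have i4 : ∀ m, d * D 4 m = A' * D 1 m + B' * D 2 m := fun m =>
      int_rel (D 1) (D 2) (D 4) a' b' r4 (Sum.inl k) (Sum.inl l) m
    have hD0 : ∀ m, D 0 m = 0 := fun m => by simp [D, z]
    have hA0 : A ≠ 0 := by
      intro h0
      have ha0 : a = 0 := by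
        have h5 : (A : ℝ) = 0 := by exact_mod_cast h0
        rw [h5] at hAr
        exact ((mul_eq_zero.1 hAr.symm).resolve_right hdr)
      have := (indep 0 3 2 (by decide) (by decide) (by decide) 1 (-b) fun m => by
        rw [hD0, r3, ha0]; push_cast; ring).1
      exact one_ne_zero this
    have hA'0 : A' ≠ 0 := by
      intro h0
      have ha0 : a' = 0 := by
        have h5 : (A' : ℝ) = 0 := by exact_mod_cast h0
        rw [h5] at hAr'
        exact ((mul_eq_zero.1 hAr'.symm).resolve_right hdr)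
      have := (indep 0 4 2 (by decide) (by decide) (by decide) 1 (-b') fun m => by
        rw [hD0, r4, ha0]; push_cast; ring).1
      exact one_ne_zero this
    have hdet0 : (A - d) * B' - (A' - d) * B ≠ 0 := by
      intro h0
      have h5 : ((a - 1) * b' - (a' - 1) * b) * (d * d : ℝ) = 0 := by
        have h6 : (((A - d) * B' - (A' - d) * B : ℤ) : ℝ) = 0 := by rw [h0]; simp
        push_cast at h6
        rw [hAr, hBr, hAr', hBr'] at h6
        linear_combination h6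
      have h7 : (a - 1) * b' - (a' - 1) * b = 0 :=
        (mul_eq_zero.1 h5).resolve_right (mul_ne_zero hdr hdr)
      -- `D 3 - D 1 = (a - 1) D 1 + b D 2`, `D 4 - D 1 = (a' - 1) D 1 + b' D 2`
      have h8 := indep 1 3 4 (by decide) (by decide) (by decide) (a' - 1) (-(a - 1)) fun m => by
        rw [r3, r4]; linear_combination (-(D 2 (Sum.inl m) : ℝ)) * h7
      have h9 := indep 1 3 4 (by decide) (by decide) (by decide) b' (-b) fun m => by
        rw [r3, r4]; linear_combination ((D 1 (Sum.inl m) : ℝ)) * h7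
      -- so `a = 1` and `b = 0`: `D 3 = D 1`
      have h10 : a = 1 := by linarith [h8.2]
      have h11 : b = 0 := by linarith [h9.2]
      have h12 := (indep 1 3 0 (by decide) (by decide) (by decide) 1 0 fun m => by
        rw [r3, h10, h11]; ring).1
      exact one_ne_zero h12
    -- Gram vectors
    have sph : ∀ j, ∑ m : Fin r × Fin 2 × Fin 2, (xc p (ζ 0) m + D j (Sum.inl m)) ^ 2 =
        ∑ m, xc p (ζ 0) m ^ 2 := by
      intro j
      rw [hR _ (hζ 0), ← hR _ (hζ j)]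
      refine Finset.sum_congr rfl fun m _ => ?_
      simp only [D, z, pt, Sum.elim_inl]
      ring
    have gr := gram_rel (xc p (ζ 0)) (fun m => D 1 (Sum.inl m)) (fun m => D 2 (Sum.inl m))
      (fun m => D 3 (Sum.inl m)) (fun m => i3 (Sum.inl m)) (sph 1) (sph 2) (sph 3)
    have gr' := gram_rel (xc p (ζ 0)) (fun m => D 1 (Sum.inl m)) (fun m => D 2 (Sum.inl m))
      (fun m => D 4 (Sum.inl m)) (fun m => i4 (Sum.inl m)) (sph 1) (sph 2) (sph 4)
    obtain ⟨c1, c2⟩ := cs_pos (fun m => D 1 (Sum.inl m)) (fun m => D 2 (Sum.inl m)) hkl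
    -- sizes
    have hsz : ∀ j m, |D j (Sum.inl m)| ≤ (Q : ℤ) := by
      intro j m
      simp only [D, z, pt, Sum.elim_inl]
      have q1 := xc_nonneg p (ζ j) m
      have q2 := xc_lt p hQ (ζ j) m
      have q3 := xc_nonneg p (ζ 0) m
      have q4 := xc_lt p hQ (ζ 0) m
      rw [abs_le]; constructor <;> linarith
    have hbd := bad_bound (n := 4 * r) (Q := (Q : ℤ)) (by
        simp only [Fintype.card_prod, Fintype.card_fin]; omega) (Int.natCast_nonneg _)
      (fun m => D 1 (Sum.inl m)) (fun m => D 2 (Sum.inl m)) (fun m => D 3 (Sum.inl m))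
      (fun m => D 4 (Sum.inl m)) (hsz 1) (hsz 2) (hsz 3) (hsz 4) k l hkl
    rw [← hd_def, ← hA_def, ← hB_def, ← hA'_def, ← hB'_def] at hbd
    set n1 := ∑ m, D 1 (Sum.inl m) ^ 2 with hn1
    set n2 := ∑ m, D 1 (Sum.inl m) * D 2 (Sum.inl m) with hn2
    set n3 := ∑ m, D 2 (Sum.inl m) ^ 2 with hn3
    have hN0 : A * A' * ((A - d) * B' - (A' - d) * B) * n1 * (n1 * n3 - n2 ^ 2) ≠ 0 :=
      mul_ne_zero (mul_ne_zero (mul_ne_zero (mul_ne_zero hA0 hA'0) hdet0) c1.ne') c2.ne'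
    have hNb : (A * A' * ((A - d) * B' - (A' - d) * B) * n1 * (n1 * n3 - n2 ^ 2)).natAbs < P ^ (h + 1) := by
      refine lt_of_le_of_lt ?_ hbound
      have h5 : (((A * A' * ((A - d) * B' - (A' - d) * B) * n1 * (n1 * n3 - n2 ^ 2)).natAbs : ℕ) : ℤ) ≤
          ((64 * (4 * r) ^ 3 * Q ^ 14 : ℕ) : ℤ) := by
        rw [Int.natCast_natAbs]
        push_cast
        push_cast at hbd
        exact hbd
      exact_mod_cast h5
    have hcard := bad_card p hinj (by omega : 1 < P) hP hN0 hNb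
    have h13 := hd (ζ 1) (hζ 1) (ζ 0) (hζ 0) _ hcard fun i hi => by
      rw [Finset.mem_filter, not_and] at hi
      exact block_eq p g hg i (by have := hP i; omega) ζ i3 i4 gr gr' (hi (Finset.mem_univ _))
    exact hinjζ.ne (by decide : (1 : Fin 5) ≠ 0) h13

end Pool.Agent.GUB
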