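import Mathlib

/-!
# Generic projections of finite sets without three collinear and five coplanar points
-/

set_option autoImplicit false

namespace Pool.Agent.GUB

/-- no three distinct points of `M` are collinear and no five distinct points of `M` are coplanar -/
structure Gen {V : Type*} [AddCommGroup V] [Module ℝ V] (M : Set V) : Prop where
  three : ∀ x ∈ M, ∀ y ∈ M, ∀ z ∈ M, x ≠ y → x ≠ z → y ≠ z →
    ∀ s t : ℝ, s • (y - x) + t • (z - x) = 0 → s = 0 ∧ t = 0
  five : ∀ x : Fin 5 → V, Function.Injective x → (∀ i, x i ∈ M) → ∀ a b a' b' : ℝ,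
    x 3 - x 0 = a • (x 1 - x 0) + b • (x 2 - x 0) →
    x 4 - x 0 = a' • (x 1 - x 0) + b' • (x 2 - x 0) → False

variable {V W : Type*} [AddCommGroup V] [Module ℝ V] [AddCommGroup W] [Module ℝ W]

/-- the kernel of `f` meets the spans of three differences of `M` trivially -/
def Tame (f : V →ₗ[ℝ] W) (M : Set V) : Prop :=
  ∀ x ∈ M, ∀ y ∈ M, ∀ z ∈ M, ∀ t ∈ M, ∀ a b c : ℝ,
    f (a • (y - x) + b • (z - x) + c • (t - x)) = 0 → a • (y - x) + b • (z - x) + c • (t - x) = 0

theorem Tame.inj {f : V →ₗ[ℝ] W} {M : Set V} (h : Tame f M) : Set.InjOn f M := by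
  intro x hx y hy hxy
  have := h x hx y hy x hx x hx 1 0 0 (by simp [hxy])
  simp only [one_smul, zero_smul, add_zero] at this
  exact (sub_eq_zero.1 this).symm

theorem Tame.gen {f : V →ₗ[ℝ] W} {M : Set V} (h : Tame f M) (hM : Gen M) : Gen (f '' M) := by
  constructor
  · rintro _ ⟨x, hx, rfl⟩ _ ⟨y, hy, rfl⟩ _ ⟨z, hz, rfl⟩ hxy hxz hyz s t hst
    have h1 := h x hx y hy z hz x hx s t 0 (by
      simp only [zero_smul, add_zero, map_add, map_smul, map_sub]; exact hst)
    simp only [zero_smul, add_zero] at h1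
    exact hM.three x hx y hy z hz (fun e => hxy (by rw [e])) (fun e => hxz (by rw [e]))
      (fun e => hyz (by rw [e])) s t h1
  · intro X hX hXM a b a' b' h1 h2
    choose x hx hfx using hXM
    have hinj : Function.Injective x := by
      intro i j hij
      apply hX
      rw [← hfx i, ← hfx j, hij]
    refine hM.five x hinj hx a b a' b' ?_ ?_
    · have := h (x 0) (hx 0) (x 3) (hx 3) (x 1) (hx 1) (x 2) (hx 2) 1 (-a) (-b) (by
        simp only [map_add, map_smul, map_sub, hfx]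
        rw [h1]; module)
      rw [← sub_eq_zero, ← this]; module
    · have := h (x 0) (hx 0) (x 4) (hx 4) (x 1) (hx 1) (x 2) (hx 2) 1 (-a') (-b') (by
        simp only [map_add, map_smul, map_sub, hfx]
        rw [h2]; module)
      rw [← sub_eq_zero, ← this]; module

theorem tame_of_inj {f : V →ₗ[ℝ] W} (hf : Function.Injective f) (M : Set V) : Tame f M := by
  intro x _ y _ z _ t _ a b c h0
  exact hf (by rw [h0, map_zero])

/-- a direction outside the spans of three differences -/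
theorem exists_dir [FiniteDimensional ℝ V] (hV : 4 ≤ Module.finrank ℝ V) (M : Finset V) :
    ∃ w : V, w ≠ 0 ∧ ∀ x ∈ M, ∀ y ∈ M, ∀ z ∈ M, ∀ t ∈ M, ∀ a b c : ℝ,
      a • (y - x) + b • (z - x) + c • (t - x) ≠ w := by
  classical
  let S : Finset (Subspace ℝ V) := insert ⊥
    (((M ×ˢ M) ×ˢ (M ×ˢ M)).image fun p => Submodule.span ℝ
      ((({p.1.2 - p.1.1, p.2.1 - p.1.1, p.2.2 - p.1.1} : Finset V)) : Set V))
  have hS : (⊤ : Subspace ℝ V) ∉ S := by
    intro hmem
    rw [Finset.mem_insert, Finset.mem_image] at hmem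
    rcases hmem with h | ⟨p, -, hp⟩
    · have h1 : Module.finrank ℝ (⊤ : Submodule ℝ V) = Module.finrank ℝ (⊥ : Submodule ℝ V) := by
        rw [h]
      rw [finrank_top, finrank_bot] at h1
      omega
    · have h1 := finrank_span_finset_le_card (R := ℝ)
        ({p.1.2 - p.1.1, p.2.1 - p.1.1, p.2.2 - p.1.1} : Finset V)
      rw [Set.finrank, hp, finrank_top] at h1
      have h2 : ({p.1.2 - p.1.1, p.2.1 - p.1.1, p.2.2 - p.1.1} : Finset V).card ≤ 3 :=
        Finset.card_le_three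
      omega
  have hne := Subspace.biUnion_ne_univ_of_top_notMem hS
  obtain ⟨w, hw⟩ := (Set.ne_univ_iff_exists_notMem _).1 hne
  simp only [Set.mem_iUnion, not_exists, SetLike.mem_coe] at hw
  refine ⟨w, ?_, ?_⟩
  · rintro rfl
    exact hw ⊥ (Finset.mem_insert_self _ _) (Submodule.zero_mem _)
  · intro x hx y hy z hz t ht a b c heq
    refine hw (Submodule.span ℝ ((({y - x, z - x, t - x} : Finset V)) : Set V)) ?_ ?_
    · apply Finset.mem_insert_of_mem
      rw [Finset.mem_image]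
      exact ⟨((x, y), (z, t)), by simp [hx, hy, hz, ht], rfl⟩
    · rw [← heq]
      have hm : ∀ v ∈ ({y - x, z - x, t - x} : Finset V),
          v ∈ Submodule.span ℝ ((({y - x, z - x, t - x} : Finset V)) : Set V) := fun v hv =>
        Submodule.subset_span hv
      refine Submodule.add_mem _ (Submodule.add_mem _ ?_ ?_) ?_
      · exact Submodule.smul_mem _ _ (hm _ (by simp))
      · exact Submodule.smul_mem _ _ (hm _ (by simp))
      · exact Submodule.smul_mem _ _ (hm _ (by simp))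

theorem tame_mkQ {w : V} (hw : w ≠ 0) {M : Set V}
    (h : ∀ x ∈ M, ∀ y ∈ M, ∀ z ∈ M, ∀ t ∈ M, ∀ a b c : ℝ,
      a • (y - x) + b • (z - x) + c • (t - x) ≠ w) :
    Tame (Submodule.mkQ (ℝ ∙ w)) M := by
  intro x hx y hy z hz t ht a b c h0
  rw [Submodule.mkQ_apply, Submodule.Quotient.mk_eq_zero, Submodule.mem_span_singleton] at h0
  obtain ⟨k, hk⟩ := h0
  by_cases hk0 : k = 0
  · rw [← hk, hk0, zero_smul]
  · exfalso
    refine h x hx y hy z hz t ht (k⁻¹ * a) (k⁻¹ * b) (k⁻¹ * c) ?_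
    have : (k⁻¹ * a) • (y - x) + (k⁻¹ * b) • (z - x) + (k⁻¹ * c) • (t - x) =
        k⁻¹ • (a • (y - x) + b • (z - x) + c • (t - x)) := by module
    rw [this, ← hk, smul_smul, inv_mul_cancel₀ hk0, one_smul]

/-- generic projection to `ℝ³` -/
theorem exists_proj (n : ℕ) : ∀ (V : Type) [AddCommGroup V] [Module ℝ V] [FiniteDimensional ℝ V],
    Module.finrank ℝ V = n + 3 → ∀ M : Finset V, Gen (M : Set V) →
    ∃ f : V →ₗ[ℝ] (Fin 3 → ℝ), Set.InjOn f M ∧ Gen (f '' (M : Set V)) := by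
  induction n with
  | zero =>
    intro V _ _ _ hV M hM
    let e : V ≃ₗ[ℝ] (Fin 3 → ℝ) := LinearEquiv.ofFinrankEq V (Fin 3 → ℝ) (by simp [hV])
    have ht := tame_of_inj (f := (e : V →ₗ[ℝ] (Fin 3 → ℝ))) e.injective (M : Set V)
    exact ⟨e, ht.inj, ht.gen hM⟩
  | succ n ih =>
    intro V _ _ _ hV M hM
    classical
    obtain ⟨w, hw, hdir⟩ := exists_dir (by omega) M
    have ht : Tame (Submodule.mkQ (ℝ ∙ w)) (M : Set V) := tame_mkQ hw hdir
    have hfr : Module.finrank ℝ (V ⧸ (ℝ ∙ w)) = n + 3 := by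
      have h1 := Submodule.finrank_quotient_add_finrank (ℝ ∙ w)
      rw [finrank_span_singleton hw] at h1
      omega
    have hcoe : ((M.image (Submodule.mkQ (ℝ ∙ w)) : Finset (V ⧸ (ℝ ∙ w))) : Set (V ⧸ (ℝ ∙ w))) =
        Submodule.mkQ (ℝ ∙ w) '' (M : Set V) := by
      rw [Finset.coe_image]
    obtain ⟨f, hf1, hf2⟩ := ih (V ⧸ (ℝ ∙ w)) hfr (M.image (Submodule.mkQ (ℝ ∙ w))) (by
      rw [hcoe]; exact ht.gen hM)
    rw [hcoe] at hf1 hf2
    refine ⟨f.comp (Submodule.mkQ (ℝ ∙ w)), ?_, ?_⟩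
    · intro x hx y hy hxy
      exact ht.inj hx hy (hf1 ⟨x, hx, rfl⟩ ⟨y, hy, rfl⟩ hxy)
    · rw [LinearMap.coe_comp, Set.image_comp]
      exact hf2

end Pool.Agent.GUB
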